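import Mathlib
import Pool.Graph.R_seed8.Y328.CR.Fam
import Pool.Agent.KS6_38.WR.Emb

/-!
# MP_84d7a8_al: finitely generated groups of every finite regularity which are not virtually smooth

Full positive answer to Q1 for `M = I` and `M = S¹`, in a stronger form than the library's results
(`FiniteNotSmooth`, one group; `ContinuumManyGroups`, continuum many groups, pairwise not
isomorphic): the finitely generated groups found here are not even virtually smooth, and pairwise not
commensurable.  They are the restricted wreath products `K ≀ ℤ` of the groups `K` of the library: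
every subgroup of finite index of `K ≀ ℤ` contains a (diagonal) copy of `K`, and `K ≀ ℤ` acts on the
line by `C^k` diffeomorphisms with compact support if `K` does.

The definitions `DiffI`, `DiffS`, `CS` (and `ext01`, `IsLift`) are those of the library file
`Pool/Graph/R_seed8/W331/CR/Defs.lean`:

* `DiffI r`: the orientation preserving `C^r` diffeomorphisms of the interval `[0,1]`;
* `DiffS r`: the orientation preserving `C^r` diffeomorphisms of the circle `ℝ/ℤ`;
* `CS r`: the `C^r` diffeomorphisms of the line which are the identity outside `(1/4,3/4)`.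
-/

set_option autoImplicit false

namespace Pool.Agent.Results.MP_84d7a8_al.VirtuallyNotSmooth

open Set Function
open scoped ContDiff
open Pool.Agent.W331.CR (ext01 IsLift DiffI DiffS CS csI csS s_toI s_toS)
open Pool.Agent.KS6_38.WR

/-- `Diff_+^{k+τ}([0,1])`: the orientation preserving `C^k` diffeomorphisms of `[0,1]` whose `k`-th
derivative is `τ`-Hölder continuous on `[0,1]` (no condition when `τ = 0`) -/
def HolderDiffI (k : ℕ) (τ : ℝ) : Set (Icc (0:ℝ) 1 ≃o Icc (0:ℝ) 1) :=
  {φ | φ ∈ DiffI k ∧ (τ = 0 ∨ ∃ C : ℝ, ∀ x ∈ Icc (0:ℝ) 1, ∀ y ∈ Icc (0:ℝ) 1,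
    |iteratedDerivWithin k (ext01 φ) (Icc 0 1) x - iteratedDerivWithin k (ext01 φ) (Icc 0 1) y| ≤
      C * |x - y| ^ τ)}

/-- `Diff_+^{k+τ}(S^1)`: the orientation preserving `C^k` diffeomorphisms of the circle `ℝ/ℤ` having
a lift to the line whose `k`-th derivative is `τ`-Hölder continuous (no condition when `τ = 0`) -/
def HolderDiffS (k : ℕ) (τ : ℝ) : Set (Equiv.Perm (AddCircle (1:ℝ))) :=
  {σ | ∃ F : ℝ ≃o ℝ, IsLift k F ∧ (∀ x : ℝ, σ (x : AddCircle (1:ℝ)) = ((F x : ℝ) : AddCircle (1:ℝ))) ∧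
    (τ = 0 ∨ ∃ C : ℝ, ∀ x y : ℝ,
      |iteratedDeriv k (F : ℝ → ℝ) x - iteratedDeriv k (F : ℝ → ℝ) y| ≤ C * |x - y| ^ τ)}

/-- `G` embeds, for every natural number `k`, into the group of the orientation preserving `C^k`
diffeomorphisms of `[0,1]`, into that of the circle, and into the group of the `C^k` diffeomorphisms
of the line which are the identity outside `(1/4,3/4)`. -/
def EveryRegularity (G : Type) [Group G] : Prop :=
  ∀ k : ℕ, (∃ φ : G →* DiffI k, Injective φ) ∧ (∃ φ : G →* DiffS k, Injective φ) ∧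
    ∃ φ : G →* CS k, Injective φ

/-- `G` embeds into `Diff_+^{k+τ}([0,1])` and into `Diff_+^{k+τ}(S^1)` for all `k ≥ 1`,
`0 ≤ τ < 1`. -/
def EveryHolderRegularity (G : Type) [Group G] : Prop :=
  ∀ (k : ℕ) (τ : ℝ), 1 ≤ k → 0 ≤ τ → τ < 1 →
    (∃ φ : G →* (Icc (0:ℝ) 1 ≃o Icc (0:ℝ) 1), Injective φ ∧ ∀ g, φ g ∈ HolderDiffI k τ) ∧
    (∃ φ : G →* Equiv.Perm (AddCircle (1:ℝ)), Injective φ ∧ ∀ g, φ g ∈ HolderDiffS k τ)

/-- Every subgroup `H` of finite index of `G` has an element `z ≠ 1` which is killed by all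
homomorphisms from `H` to `Diff_+^∞([0,1])` and to `Diff_+^∞(S^1)`. -/
def StronglyNotVirtuallySmooth (G : Type) [Group G] : Prop :=
  ∀ H : Subgroup G, H.FiniteIndex → ∃ z : H, z ≠ 1 ∧
    (∀ φ : H →* DiffI ∞, φ z = 1) ∧ ∀ φ : H →* DiffS ∞, φ z = 1

/-- No subgroup of finite index of `G` is isomorphic to a subgroup of finite index of `G'`. -/
def NotCommensurable (G G' : Type) [Group G] [Group G'] : Prop :=
  ∀ (H : Subgroup G) (H' : Subgroup G'), H.FiniteIndex → H'.FiniteIndex → IsEmpty (H ≃* H')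

/-- There are finitely generated groups `G s`, indexed by the real numbers `s`, such that

* for every natural number `k` the group `G s` embeds into the group of the orientation preserving
  `C^k` diffeomorphisms of `[0,1]`, into that of the circle, and into the group of the `C^k`
  diffeomorphisms of the line which are the identity outside `(1/4,3/4)`;
* `G s` embeds into `Diff_+^{k+τ}([0,1])` and `Diff_+^{k+τ}(S^1)` for all `k ≥ 1`, `0 ≤ τ < 1`;
* no subgroup `H` of finite index of `G s` embeds into `Diff_+^∞([0,1])` or into `Diff_+^∞(S^1)`,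
  and in fact `H` has an element `z ≠ 1` killed by all homomorphisms from `H` to these two groups;
* for `s ≠ t` no subgroup of finite index of `G s` is isomorphic to one of `G t` (so the groups
  are pairwise not isomorphic, and not even commensurable);
* a countable group contains copies of at most countably many of the groups `G s`. -/
theorem result : ∃ (G : ℝ → Type) (_ : ∀ s, Group (G s)),
    (∀ s, Group.FG (G s) ∧ EveryRegularity (G s) ∧ EveryHolderRegularity (G s) ∧
      StronglyNotVirtuallySmooth (G s)) ∧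
    (∀ s t, s ≠ t → NotCommensurable (G s) (G t)) ∧
    (∀ (K : Type) [Group K] [Countable K], {s | ∃ ψ : G s →* K, Injective ψ}.Countable) := by
  classical
  obtain ⟨G, hG, hfg, hemb, hkill, hcnt⟩ := Pool.Agent.Y328.CR.fgFam
  have hnt : ∀ s, Nontrivial (G s) := by
    intro s
    obtain ⟨y, hy, -⟩ := hkill s
    exact ⟨y, 1, hy⟩
  have hc : ∀ s, Countable (W (G s)) := fun s =>
    Pool.Agent.Y328.CR.countable_of_fg (W (G s)) (fg_W (hfg s))
  obtain ⟨σ, hσ, hσ2⟩ := Pool.Agent.Y328.CR.select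
    (fun s t => ∃ (H : Subgroup (W (G s))) (H' : Subgroup (W (G t))), H.FiniteIndex ∧
      H'.FiniteIndex ∧ Nonempty (H ≃* H'))
    (by
      rintro s t ⟨H, H', h1, h2, ⟨e⟩⟩
      exact ⟨H', H, h2, h1, ⟨e.symm⟩⟩)
    (by
      intro t
      have := hc t
      refine (hcnt (W (G t))).mono ?_
      rintro s ⟨H, H', h1, h2, ⟨e⟩⟩
      obtain ⟨δ, hδ⟩ := exists_copy H h1
      exact ⟨(H'.subtype.comp e.toMonoidHom).comp δ,
        (Subtype.coe_injective.comp e.injective).comp hδ⟩)
  refine ⟨fun x => W (G (σ x)), fun x => inferInstance,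
    fun x => ⟨fg_W (hfg _), ?_, ?_, ?_⟩, ?_, ?_⟩
  · intro k
    obtain ⟨φ, hφ⟩ := emb_W k (hemb (σ x) k)
    obtain ⟨ψ, hψ⟩ := csI s_toI (k : WithTop ℕ∞)
    obtain ⟨χ, hχ⟩ := csS s_toS (k : WithTop ℕ∞)
    exact ⟨⟨ψ.comp φ, hψ.comp hφ⟩, ⟨χ.comp φ, hχ.comp hφ⟩, φ, hφ⟩
  · intro k τ hk h3 h4
    obtain ⟨φ, hφ⟩ := emb_W ((k + 1 : ℕ) : WithTop ℕ∞) (hemb (σ x) (k + 1))
    obtain ⟨ψ, hψ⟩ := csI s_toI ((k + 1 : ℕ) : WithTop ℕ∞)
    obtain ⟨χ, hχ⟩ := csS s_toS ((k + 1 : ℕ) : WithTop ℕ∞)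
    refine ⟨⟨(DiffI _).subtype.comp (ψ.comp φ), Subtype.coe_injective.comp (hψ.comp hφ),
        fun g => ?_⟩,
      ⟨(DiffS _).subtype.comp (χ.comp φ), Subtype.coe_injective.comp (hχ.comp hφ), fun g => ?_⟩⟩
    · exact Pool.Agent.W331.CR.diffI_hol k τ h3 h4 _ (ψ (φ g)).2
    · exact Pool.Agent.W331.CR.diffS_hol k hk τ h3 h4 _ (χ (φ g)).2
  · intro H hH
    obtain ⟨δ, hδ⟩ := exists_copy H hH
    obtain ⟨y, hy, hI, hS⟩ := hkill (σ x)
    refine ⟨δ y, ?_, fun φ => hI (φ.comp δ), fun φ => hS (φ.comp δ)⟩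
    intro h
    apply hy
    rw [← map_one δ] at h
    exact hδ h
  · intro x x' hx H H' hH hH'
    refine ⟨fun e => hσ2 x x' hx ⟨H, H', hH, hH', ⟨e⟩⟩⟩
  · intro K _ _
    have h1 : (σ ⁻¹' {s | ∃ ψ : G s →* K, Injective ψ}).Countable :=
      (hcnt K).preimage_of_injOn hσ.injOn
    refine h1.mono ?_
    rintro x ⟨ψ, hψ⟩
    exact ⟨ψ.comp kW, hψ.comp kW_injective⟩

end Pool.Agent.Results.MP_84d7a8_al.VirtuallyNotSmooth
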